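import Pool.Agent.H24.NN.Basic

/-!
# MP_758103_lc : `NN f ≤ 2 LDL f - n + 2` for every Boolean function with `LDL f ≥ n`

The problem asks for `NN f ≤ LDL f + 1` in the open range `LDL f > n`.  Here: for every Boolean function `f` on
`n ≥ 1` bits with `LDL f ≥ n`, `NN f ≤ LDL f + 1 + (LDL f - n + 1)`; in particular the conjectured inequality
holds up to the factor two in the whole open range, and up to two anchors in the first open case
`LDL f = n + 1`.
-/

namespace Pool.Agent.Results.MP_758103_lc.FactorTwo

open Pool.Agent.H24NN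

theorem result (n : ℕ) (hn : 1 ≤ n) (f : (Fin n → Bool) → Bool) (hf : n ≤ LDL f) :
    NN f + n ≤ 2 * LDL f + 2 := by
  obtain ⟨L, hL⟩ := exists_optimal f
  by_cases hsp : Submodule.span ℝ (Set.range fun i => wv (L.w i)) = ⊤
  · exact nn_le_of_span hn hL hsp
  · have h1 : (Submodule.span ℝ (Set.range fun i => wv (L.w i)))ᗮ ≠ ⊥ := by
      rwa [Ne, Submodule.orthogonal_eq_bot_iff]
    obtain ⟨V, hV, hV0⟩ := Submodule.exists_mem_ne_zero_of_ne_bot h1
    have h2 : NN f ≤ LDL f + 1 := by
      refine nn_le_of_orthogonal hL (fun j => V j) ?_ ?_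
      · intro h
        apply hV0
        ext j
        exact congrFun h j
      · intro i
        have h3 := (Submodule.mem_orthogonal _ _).1 hV (wv (L.w i))
          (Submodule.subset_span ⟨i, rfl⟩)
        rw [← h3, PiLp.inner_apply]
        refine Finset.sum_congr rfl fun j _ => ?_
        simp only [RCLike.inner_apply, conj_trivial, wv]
        rw [mul_comm]
    omega

end Pool.Agent.Results.MP_758103_lc.FactorTwo
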