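import Pool.Agent.H24.NN.Basic

/-!
# MP_758103_lc : the conjectured bound for all depths if the weight vectors do not span

If `f` is computed by a linear decision list of depth `m` (`m` arbitrary) all of whose weight vectors are
orthogonal to one nonzero vector, then `NN f ≤ m + 1`.  So `NN f ≤ LDL f + 1` whenever some optimal list has
weight vectors that do not span `ℝ^n`; for example for every function that ignores one of its variables.
-/

namespace Pool.Agent.Results.MP_758103_lc.NonSpanning

open Pool.Agent.H24NN

theorem result (n m : ℕ) (f : (Fin n → Bool) → Bool) (L : LDList n m) (hL : L.Computes f)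
    (hort : ∃ v : Fin n → ℝ, v ≠ 0 ∧ ∀ i, ∑ j, L.w i j * v j = 0) : NN f ≤ m + 1 := by
  obtain ⟨v, hv, hv'⟩ := hort
  exact nn_le_of_orthogonal hL v hv hv'

end Pool.Agent.Results.MP_758103_lc.NonSpanning
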